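import Pool.Agent.H84.ND.Targets2

/-!
# MP_70ba79_ag, board `ndc_modules`: row PFA (the substitutions for a pencil)
-/

set_option autoImplicit false

namespace Pool.Agent.H72.ND

open MvPolynomial SC Pool.Agent.H27.LV Pool.Agent.H84.SM Pool.Agent.H84.ND

section

variable {k K : Type} [Field k] [Field K]

/-- the ring with the parameter -/
abbrev SP (k : Type) [Field k] : Type := Polynomial (P2 k)

/-- gradient of the pencil -/
noncomputable def grT (G H : MvPolynomial (Fin 3) k) (i : Fin 3) : SP k :=
  Polynomial.C (Polynomial.C (gr G xb i)) + Polynomial.X * Polynomial.C (Polynomial.C (gr H xb i))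

/-- second derivative of the pencil -/
noncomputable def hsT (G H : MvPolynomial (Fin 3) k) (y : Fin 3 → SP k) : SP k :=
  ∑ i, ∑ j, (Polynomial.C (Polynomial.C (aeval xb (pderiv i (pderiv j G)))) +
    Polynomial.X * Polynomial.C (Polynomial.C (aeval xb (pderiv i (pderiv j H))))) * y i * y j

/-- the direction -/
noncomputable def yT (G H : MvPolynomial (Fin 3) k) (l : Fin 3) : Fin 3 → SP k := fun i =>
  if i = l then - (grT G H (l + 1) * Polynomial.C (Polynomial.C (qb 0)) +
    grT G H (l + 2) * Polynomial.C (Polynomial.C (qb 1)))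
  else if i = l + 1 then grT G H l * Polynomial.C (Polynomial.C (qb 0))
  else grT G H l * Polynomial.C (Polynomial.C (qb 1))

/-- the element `w` -/
noncomputable def wT (G H : MvPolynomial (Fin 3) k) (d : ℕ) (l : Fin 3) : SP k :=
  (d : SP k) * (Polynomial.C (Polynomial.C (aeval xb G)) +
    Polynomial.X * Polynomial.C (Polynomial.C (aeval xb H))) * Polynomial.C Polynomial.X -
    hsT G H (yT G H l) * Polynomial.C (Polynomial.C (xb (l + 1) * qb 1 - xb (l + 2) * qb 0))

/-- the substitution of the pencil -/
noncomputable def Phi (G H : MvPolynomial (Fin 3) k) (d : ℕ) (l : Fin 3) : R2 k →+* SP k :=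
  Polynomial.eval₂RingHom
    (MvPolynomial.eval₂Hom ((Polynomial.C.comp Polynomial.C).comp (MvPolynomial.C : k →+* B2 k))
      (Sum.elim (fun i => Polynomial.C (Polynomial.C (xb i))) (yT G H l)))
    (wT G H d l)

theorem map_aeval_xb (φ : k →+* K) (P : MvPolynomial (Fin 3) k) :
    MvPolynomial.map φ (aeval (xb (k := k)) P) = aeval (xb (k := K)) (MvPolynomial.map φ P) := by
  have h : (MvPolynomial.map φ).comp
      ((aeval (xb (k := k)) : MvPolynomial (Fin 3) k →ₐ[k] B2 k) : MvPolynomial (Fin 3) k →+* B2 k)
      = ((aeval (xb (k := K)) : MvPolynomial (Fin 3) K →ₐ[K] B2 K) :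
        MvPolynomial (Fin 3) K →+* B2 K).comp (MvPolynomial.map φ) := by
    apply MvPolynomial.ringHom_ext
    · intro r
      simp
    · intro i
      simp [xb]
  exact congrArg (fun f => f P) h

theorem aeval_pencil (φ : k →+* K) (t : K) (A B : MvPolynomial (Fin 3) k) :
    aeval (xb (k := K)) (MvPolynomial.map φ A + C t * MvPolynomial.map φ B) =
      MvPolynomial.map φ (aeval xb A) + C t * MvPolynomial.map φ (aeval xb B) := by
  rw [map_add, map_mul, ← map_aeval_xb, ← map_aeval_xb]
  congr 2
  simp

theorem pderiv_pencil (φ : k →+* K) (t : K) (A B : MvPolynomial (Fin 3) k) (i : Fin 3) :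
    pderiv i (MvPolynomial.map φ A + C t * MvPolynomial.map φ B) =
      MvPolynomial.map φ (pderiv i A) + C t * MvPolynomial.map φ (pderiv i B) := by
  rw [map_add, pderiv_C_mul, pderiv_map, pderiv_map]

theorem key (φ : k →+* K) (t : K) (G H : MvPolynomial (Fin 3) k) (d : ℕ) (l : Fin 3)
    (σ : SP k →+* P2 K)
    (h1 : ∀ b : B2 k, σ (Polynomial.C (Polynomial.C b)) = Polynomial.C (MvPolynomial.map φ b))
    (h2 : σ (Polynomial.C Polynomial.X) = Polynomial.X)
    (h3 : σ Polynomial.X = Polynomial.C (C t)) (N : R2 k) :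
    σ (Phi G H d l N) = Psi (MvPolynomial.map φ G + C t * MvPolynomial.map φ H) d l
      (N.map (MvPolynomial.map φ)) := by
  set G' := MvPolynomial.map φ G + C t * MvPolynomial.map φ H with hG'
  have hmb : ∀ A B : MvPolynomial (Fin 3) k,
      σ (Polynomial.C (Polynomial.C (aeval xb A)) +
        Polynomial.X * Polynomial.C (Polynomial.C (aeval xb B))) =
      Polynomial.C (aeval (xb (k := K)) (MvPolynomial.map φ A + C t * MvPolynomial.map φ B)) := by
    intro A B
    rw [map_add, map_mul, h1, h1, h3, aeval_pencil, Polynomial.C_add, Polynomial.C_mul]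
  have hgr : ∀ i, σ (grT G H i) = Polynomial.C (gr G' xb i) := by
    intro i
    unfold grT gr
    rw [hmb, hG', pderiv_pencil]
  have hqb : ∀ j, σ (Polynomial.C (Polynomial.C (qb j))) = Polynomial.C (qb j) := by
    intro j
    rw [h1]
    simp [qb]
  have hxb : ∀ j, σ (Polynomial.C (Polynomial.C (xb j))) = Polynomial.C (xb j) := by
    intro j
    rw [h1]
    simp [xb]
  have hy : ∀ i, σ (yT G H l i) = Polynomial.C (chy G' l i) := by
    intro i
    unfold yT chy
    split_ifs
    · rw [map_neg σ, RingHom.map_add σ, RingHom.map_mul σ, RingHom.map_mul σ, hgr, hgr,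
        hqb, hqb]
      simp only [Polynomial.C_neg, Polynomial.C_add, Polynomial.C_mul]
    · rw [RingHom.map_mul σ, hgr, hqb, Polynomial.C_mul]
    · rw [RingHom.map_mul σ, hgr, hqb, Polynomial.C_mul]
  have hhs : σ (hsT G H (yT G H l)) = Polynomial.C (hs G' xb (chy G' l)) := by
    unfold hsT hs
    rw [map_sum σ, map_sum (Polynomial.C : B2 K →+* P2 K)]
    refine Finset.sum_congr rfl fun i _ => ?_
    rw [map_sum σ, map_sum (Polynomial.C : B2 K →+* P2 K)]
    refine Finset.sum_congr rfl fun j _ => ?_
    rw [RingHom.map_mul σ, RingHom.map_mul σ, hy, hy, hmb, hG', pderiv_pencil, pderiv_pencil,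
      Polynomial.C_mul, Polynomial.C_mul]
  have hw : σ (wT G H d l) = chw G' d l := by
    unfold wT chw
    rw [map_sub σ, RingHom.map_mul σ, RingHom.map_mul σ, RingHom.map_mul σ,
      map_natCast σ, hmb, h2, hhs, ← hG', h1]
    have e1 : MvPolynomial.map φ (xb (l + 1) * qb 1 - xb (l + 2) * qb 0) =
        xb (l + 1) * qb 1 - xb (l + 2) * qb 0 := by simp [xb, qb]
    rw [e1, Polynomial.C_mul, Polynomial.C_mul, map_natCast]
  have h : σ.comp (Phi G H d l) =
      (Psi G' d l).comp (Polynomial.mapRingHom (MvPolynomial.map φ)) := by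
    apply Polynomial.ringHom_ext'
    · apply MvPolynomial.ringHom_ext
      · intro r
        simp only [Phi, Psi, RingHom.coe_comp, Function.comp_apply, Polynomial.coe_eval₂RingHom,
          Polynomial.eval₂_C, MvPolynomial.coe_eval₂Hom, MvPolynomial.eval₂_C,
          Polynomial.coe_mapRingHom, Polynomial.map_C, MvPolynomial.map_C, h1]
        simp
      · intro i
        simp only [Phi, Psi, RingHom.coe_comp, Function.comp_apply, Polynomial.coe_eval₂RingHom,
          Polynomial.eval₂_C, MvPolynomial.coe_eval₂Hom, MvPolynomial.eval₂_X,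
          Polynomial.coe_mapRingHom, Polynomial.map_C, MvPolynomial.map_X]
        rcases i with i | i
        · simp [hxb]
        · simp [hy]
    · simp only [Phi, Psi, RingHom.coe_comp, Function.comp_apply, Polynomial.coe_eval₂RingHom,
        Polynomial.eval₂_X, Polynomial.coe_mapRingHom, Polynomial.map_X]
      exact hw
  exact congrArg (fun f => f N) h

end

theorem pf_PFA : T_PFA := by
  intro k K _ _ _ t G H d l
  refine ⟨Phi G H d l, fun N => ?_, fun N => ?_⟩
  · have e0 : (MvPolynomial.map (RingHom.id k) : B2 k →+* B2 k) = RingHom.id (B2 k) :=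
      RingHom.ext fun p => MvPolynomial.map_id p
    have e1 : (MvPolynomial.map (RingHom.id k) : A2 k →+* A2 k) = RingHom.id (A2 k) :=
      RingHom.ext fun p => MvPolynomial.map_id p
    have h := key (RingHom.id k) (0 : k) G H d l (Polynomial.evalRingHom (0 : P2 k))
      (fun b => by
        rw [e0, Polynomial.coe_evalRingHom, Polynomial.eval_C]
        rfl)
      (by rw [Polynomial.coe_evalRingHom, Polynomial.eval_C])
      (by rw [Polynomial.coe_evalRingHom, Polynomial.eval_X, C_0, Polynomial.C_0]) N
    rw [e1, Polynomial.map_id, MvPolynomial.map_id, MvPolynomial.map_id, C_0, zero_mul,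
      add_zero, Polynomial.coe_evalRingHom] at h
    exact h
  · have h := key (algebraMap k K) t G H d l (Polynomial.eval₂RingHom
      (Polynomial.mapRingHom (MvPolynomial.map (σ := Fin 3 ⊕ Fin 2) (algebraMap k K)))
      (Polynomial.C (C t)))
      (fun b => by
        rw [Polynomial.coe_eval₂RingHom, Polynomial.eval₂_C, Polynomial.coe_mapRingHom,
          Polynomial.map_C])
      (by rw [Polynomial.coe_eval₂RingHom, Polynomial.eval₂_C, Polynomial.coe_mapRingHom,
          Polynomial.map_X])
      (by rw [Polynomial.coe_eval₂RingHom, Polynomial.eval₂_X]) N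
    rw [Polynomial.coe_eval₂RingHom] at h
    exact h

end Pool.Agent.H72.ND
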